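import Mathlib

/-!
# MP_f8e877_nt: the congruence (c) fails at `p = 11`, so the answer to Q1 is negative
-/

namespace Pool.Agent.Results.MP_f8e877_nt.PartCFails

open Finset

/-- `T_n(b,c)`, the coefficient of `x^n` in `(x^2+bx+c)^n` -/
def T (b c : ℤ) (n : ℕ) : ℤ :=
  ∑ j ∈ range (n / 2 + 1), (n.choose (2 * j) : ℤ) * ((2 * j).choose j : ℤ) * b ^ (n - 2 * j) * c ^ j

/-- `B_k = C(2k,k)^2` -/
def B (k : ℕ) : ℚ := ((2 * k).choose k : ℚ) ^ 2

/-- `v_k = (-512)^(-k) T_{3k}(6,1)` -/
def v (k : ℕ) : ℚ := (T 6 1 (3 * k) : ℚ) / (-512) ^ k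

/-- `x` and `y` are congruent modulo `p^m`: `x - y` is `p^m` times a rational number whose
denominator is prime to `p` -/
def Cong (p m : ℕ) (x y : ℚ) : Prop := ∃ r : ℚ, ¬ p ∣ r.den ∧ x - y = (p : ℚ) ^ m * r

/-- The congruence (c) of the problem, with the factor `B_k` as posed, modulo `p ^ m`;
the problem has `m = 2`. -/
def PartC (p m : ℕ) : Prop :=
  Cong p m (∑ k ∈ range p, (35 * (k : ℚ) + 9) * B k * v k)
    (9 / 32 * p * (jacobiSym 2 p : ℚ) * (25 + 7 * (jacobiSym p 7 : ℚ)))

theorem t0 : T 6 1 (3 * 0) = 1 := by decide +kernel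
theorem t1 : T 6 1 (3 * 1) = 252 := by decide +kernel
theorem t2 : T 6 1 (3 * 2) = 88796 := by decide +kernel
theorem t3 : T 6 1 (3 * 3) = 36478404 := by decide +kernel
theorem t4 : T 6 1 (3 * 4) = 16054486044 := by decide +kernel
theorem t5 : T 6 1 (3 * 5) = 7325088811632 := by decide +kernel
theorem t6 : T 6 1 (3 * 6) = 3416328042565124 := by decide +kernel
theorem t7 : T 6 1 (3 * 7) = 1617124976299315224 := by decide +kernel
theorem t8 : T 6 1 (3 * 8) = 773718627485436396316 := by decide +kernel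
theorem t9 : T 6 1 (3 * 9) = 373208862702183074593488 := by decide +kernel
theorem t10 : T 6 1 (3 * 10) = 181171961595040011125938416 := by decide +kernel

/-- (c) fails at `p = 11`, not only modulo `p^2` but already modulo `p`. -/
theorem result : ∃ p : ℕ, p.Prime ∧ 7 < p ∧ ¬ PartC p 2 ∧ ¬ PartC p 1 := by
  have j1 : jacobiSym 2 11 = -1 := by norm_num
  have j2 : jacobiSym 11 7 = 1 := by norm_num
  have key : ¬ PartC 11 1 := by
    rintro ⟨r, hr, h⟩
    have hc : (((11 : ℕ) : ℤ)) = 11 := rfl
    rw [hc, j1, j2] at h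
    simp only [sum_range_succ, sum_range_zero, B, v, t0, t1, t2, t3, t4, t5, t6, t7, t8, t9,
      t10] at h
    have c0 : (2 * 0).choose 0 = 1 := by decide +kernel
    have c1 : (2 * 1).choose 1 = 2 := by decide +kernel
    have c2 : (2 * 2).choose 2 = 6 := by decide +kernel
    have c3 : (2 * 3).choose 3 = 20 := by decide +kernel
    have c4 : (2 * 4).choose 4 = 70 := by decide +kernel
    have c5 : (2 * 5).choose 5 = 252 := by decide +kernel
    have c6 : (2 * 6).choose 6 = 924 := by decide +kernel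
    have c7 : (2 * 7).choose 7 = 3432 := by decide +kernel
    have c8 : (2 * 8).choose 8 = 12870 := by decide +kernel
    have c9 : (2 * 9).choose 9 = 48620 := by decide +kernel
    have c10 : (2 * 10).choose 10 = 184756 := by decide +kernel
    rw [c0, c1, c2, c3, c4, c5, c6, c7, c8, c9, c10] at h
    norm_num at h
    have h2 : r = 8136330252391324172445529687318829361 / (4835703278458516698824704 * 11) := by
      linarith
    apply hr
    rw [h2]
    decide +kernel
  refine ⟨11, by norm_num, by norm_num, ?_, key⟩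
  rintro ⟨r, hr, h⟩
  apply key
  refine ⟨11 * r, ?_, by rw [h]; push_cast; ring⟩
  intro hd
  apply hr
  refine hd.trans ?_
  have := Rat.mul_den_dvd 11 r
  simpa using this

end Pool.Agent.Results.MP_f8e877_nt.PartCFails
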